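import Pool.Agent.GEN.StmtsZC

/-!
# Squad GEN, row SMO: hypersurfaces with algebraically independent coefficients are smooth in the
torus
-/

set_option autoImplicit false

namespace Pool.Agent.GEN.H64

open Finset Pool.Agent.Helper6_Mono Pool.Agent.Helper30_Simp Pool.Agent.Helper30_Simp2

section core

variable {F : Type} [Field F] {σ : Type} [Fintype σ]

/-- chain rule for polynomials with integral coefficients -/
theorem chainZ (D : F → F) (hadd : ∀ a b, D (a + b) = D a + D b)
    (hmul : ∀ a b, D (a * b) = a * D b + b * D a) (x : σ → F) (p : MvPolynomial σ ℤ) :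
    D (MvPolynomial.aeval x p) = ∑ j, MvPolynomial.aeval x (MvPolynomial.pderiv j p) * D (x j) := by
  classical
  have h0 : D 0 = 0 := by
    have h := hadd 0 0
    rw [add_zero] at h
    exact left_eq_add.1 h
  have h1 : D 1 = 0 := by
    have h := hmul 1 1
    rw [mul_one, one_mul] at h
    exact left_eq_add.1 h
  have hneg : ∀ a, D (-a) = -D a := by
    intro a
    have h := hadd a (-a)
    rw [add_neg_cancel, h0] at h
    exact (neg_eq_of_add_eq_zero_right h.symm).symm
  have hnat : ∀ n : ℕ, D (n : F) = 0 := by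
    intro n
    induction n with
    | zero => rw [Nat.cast_zero]; exact h0
    | succ n ih => rw [Nat.cast_succ, hadd, ih, h1, add_zero]
  have hint : ∀ n : ℤ, D (n : F) = 0 := by
    intro n
    obtain ⟨m, rfl | rfl⟩ := n.eq_nat_or_neg
    · rw [Int.cast_natCast]; exact hnat m
    · rw [Int.cast_neg, Int.cast_natCast, hneg, hnat, neg_zero]
  induction p using MvPolynomial.induction_on with
  | C a =>
    rw [MvPolynomial.aeval_C]
    have h2 : algebraMap ℤ F a = (a : F) := rfl
    rw [h2, hint]
    symm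
    refine Finset.sum_eq_zero fun j _ => ?_
    rw [MvPolynomial.pderiv_C, map_zero, zero_mul]
  | add p q hp hq =>
    rw [map_add, hadd, hp, hq, ← Finset.sum_add_distrib]
    refine Finset.sum_congr rfl fun j _ => ?_
    rw [map_add, map_add, add_mul]
  | mul_X p i hp =>
    rw [map_mul, MvPolynomial.aeval_X, hmul, hp]
    have h2 : ∀ j, MvPolynomial.aeval x (MvPolynomial.pderiv j (p * MvPolynomial.X i)) * D (x j) =
        x i * (MvPolynomial.aeval x (MvPolynomial.pderiv j p) * D (x j)) +
          (if j = i then MvPolynomial.aeval x p * D (x i) else 0) := by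
      intro j
      rw [Derivation.leibniz, MvPolynomial.pderiv_X, smul_eq_mul, smul_eq_mul, map_add, map_mul,
        map_mul, MvPolynomial.aeval_X]
      by_cases hji : j = i
      · subst hji
        rw [if_pos rfl, Pi.single_eq_same, map_one]
        ring
      · rw [if_neg hji, Pi.single_eq_of_ne (fun h => hji h.symm), map_zero]
        ring
    rw [Finset.sum_congr rfl fun j _ => h2 j, Finset.sum_add_distrib, ← Finset.mul_sum,
      Finset.sum_ite_eq' univ i fun _ => MvPolynomial.aeval x p * D (x i), if_pos (mem_univ i)]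
    ring

/-- chain rule for a monomial -/
theorem chainM {k : Type} [Field k] (κ : k →+* F) (D : F → F)
    (hadd : ∀ a b, D (a + b) = D a + D b) (hmul : ∀ a b, D (a * b) = a * D b + b * D a)
    (x : σ → F) (α : σ →₀ ℕ) (a : k) :
    D (MvPolynomial.eval₂Hom κ x (MvPolynomial.monomial α a)) =
      D (κ a) * ∏ i, x i ^ α i +
        ∑ j, MvPolynomial.eval₂Hom κ x (MvPolynomial.pderiv j (MvPolynomial.monomial α a)) *
          D (x j) := by
  classical
  have h1 : MvPolynomial.monomial α a = MvPolynomial.C a *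
      MvPolynomial.map (Int.castRingHom k) (MvPolynomial.monomial α 1) := by
    rw [MvPolynomial.map_monomial, MvPolynomial.C_mul_monomial, map_one, mul_one]
  have h2 : ∀ p : MvPolynomial σ ℤ, MvPolynomial.eval₂Hom κ x
      (MvPolynomial.map (Int.castRingHom k) p) = MvPolynomial.aeval x p := by
    intro p
    rw [MvPolynomial.coe_eval₂Hom, MvPolynomial.eval₂_map, MvPolynomial.aeval_def]
    congr 1
    exact Subsingleton.elim _ _
  have h3 : MvPolynomial.aeval x (MvPolynomial.monomial α (1 : ℤ)) = ∏ i, x i ^ α i := by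
    rw [MvPolynomial.aeval_monomial, map_one, one_mul, Finsupp.prod_fintype]
    intro i
    exact pow_zero _
  have h4 : MvPolynomial.eval₂Hom κ x (MvPolynomial.monomial α a) = κ a * ∏ i, x i ^ α i := by
    rw [h1, map_mul, h2, h3]
    congr 1
    rw [MvPolynomial.coe_eval₂Hom, MvPolynomial.eval₂_C]
  rw [h4, hmul, mul_comm (D (κ a)), add_comm, ← h3, chainZ D hadd hmul x]
  congr 1
  rw [Finset.mul_sum]
  refine Finset.sum_congr rfl fun j _ => ?_
  rw [h1, MvPolynomial.pderiv_C_mul, MvPolynomial.pderiv_map, map_mul, h2]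
  have h5 : MvPolynomial.eval₂Hom κ x (MvPolynomial.C a) = κ a := by
    rw [MvPolynomial.coe_eval₂Hom, MvPolynomial.eval₂_C]
  rw [h5]
  ring

/-- a common zero of `part f I` and its derivatives is not in the torus -/
theorem core (dex : DexStmt) [CharZero F] {k : Type} [Field k] [CharZero k]
    (f : MvPolynomial σ k)
    (hf : AlgebraicIndependent ℚ (fun α : f.support => f.coeff (α : σ →₀ ℕ)))
    (I : Finset (σ →₀ ℕ)) (hI : I ⊆ f.support) (hne : I.Nonempty) (κ : k →+* F) (x : σ → F)
    (h0 : MvPolynomial.eval₂Hom κ x (part f I) = 0)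
    (h1 : ∀ j, MvPolynomial.eval₂Hom κ x (MvPolynomial.pderiv j (part f I)) = 0) :
    ∃ i, x i = 0 := by
  classical
  obtain ⟨β, hβ⟩ := hne
  have hAI : AlgebraicIndependent ℚ (fun α : f.support => κ (f.coeff (α : σ →₀ ℕ))) := by
    let φ : k →ₐ[ℚ] F := { κ with commutes' := fun q => map_ratCast κ q }
    have hφ : Function.Injective φ := κ.injective
    exact hf.map' (f := φ) hφ
  obtain ⟨D, hadd, hmul, hD1, hD0⟩ := dex F f.support _ hAI ⟨β, hI hβ⟩
  have hz : D 0 = 0 := by
    have h := hadd 0 0
    rw [add_zero] at h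
    exact left_eq_add.1 h
  have hsum : ∀ (s : Finset (σ →₀ ℕ)) (u : (σ →₀ ℕ) → F), D (∑ α ∈ s, u α) = ∑ α ∈ s, D (u α) := by
    intro s u
    induction s using Finset.induction_on with
    | empty => rw [Finset.sum_empty, Finset.sum_empty, hz]
    | insert a s ha ih => rw [Finset.sum_insert ha, Finset.sum_insert ha, hadd, ih]
  have h2 : D (MvPolynomial.eval₂Hom κ x (part f I)) = ∏ i, x i ^ β i := by
    have h3 : D (MvPolynomial.eval₂Hom κ x (part f I)) =
        ∑ α ∈ I, D (κ (f.coeff α)) * ∏ i, x i ^ α i +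
          ∑ j, MvPolynomial.eval₂Hom κ x (MvPolynomial.pderiv j (part f I)) * D (x j) := by
      unfold part
      rw [map_sum, hsum, Finset.sum_congr rfl fun α _ =>
        chainM κ D hadd hmul x α (MvPolynomial.coeff α f), Finset.sum_add_distrib,
        Finset.sum_comm]
      congr 1
      refine Finset.sum_congr rfl fun j _ => ?_
      rw [map_sum, map_sum, Finset.sum_mul]
    rw [h3, Finset.sum_eq_zero (s := univ) (fun j _ => by rw [h1 j, zero_mul]), add_zero,
      Finset.sum_eq_single β]
    · rw [hD1, one_mul]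
    · intro α hα hne
      have h4 := hD0 ⟨α, hI hα⟩ (fun h => hne (congrArg Subtype.val h))
      rw [h4, zero_mul]
    · intro h
      exact absurd hβ h
  rw [h0, hz] at h2
  obtain ⟨i, _, hi⟩ := Finset.prod_eq_zero_iff.1 h2.symm
  have hβi : β i ≠ 0 := by
    intro h
    rw [h, pow_zero] at hi
    exact one_ne_zero hi
  exact ⟨i, (pow_eq_zero_iff hβi).1 hi⟩

end core

/-- Row SMO -/
theorem smo (dex : DexStmt) : SmoStmt := by
  classical
  intro k _ _ σ _ f hf I hI hne
  unfold TorusSmooth
  rw [Ideal.radical_eq_sInf, Submodule.mem_sInf]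
  rintro P ⟨hP, hprime⟩
  have hle := Ideal.span_le.1 hP
  let ψ : MvPolynomial σ k →+* FractionRing (MvPolynomial σ k ⧸ P) :=
    (algebraMap (MvPolynomial σ k ⧸ P) (FractionRing (MvPolynomial σ k ⧸ P))).comp
      (Ideal.Quotient.mk P)
  have hψ : ∀ p, ψ p = 0 ↔ p ∈ P := by
    intro p
    rw [← Ideal.Quotient.eq_zero_iff_mem]
    constructor
    · intro h
      have h1 : (algebraMap (MvPolynomial σ k ⧸ P) (FractionRing (MvPolynomial σ k ⧸ P)))
          (Ideal.Quotient.mk P p) = 0 := h
      exact (IsFractionRing.injective (MvPolynomial σ k ⧸ P)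
        (FractionRing (MvPolynomial σ k ⧸ P))) (by rw [h1, map_zero])
    · intro h
      show (algebraMap (MvPolynomial σ k ⧸ P) (FractionRing (MvPolynomial σ k ⧸ P)))
        (Ideal.Quotient.mk P p) = 0
      rw [h, map_zero]
  let κ : k →+* FractionRing (MvPolynomial σ k ⧸ P) := ψ.comp MvPolynomial.C
  have hchar : CharZero (FractionRing (MvPolynomial σ k ⧸ P)) :=
    charZero_of_injective_ringHom κ.injective
  have hψe : MvPolynomial.eval₂Hom κ (fun i => ψ (MvPolynomial.X i)) = ψ := by
    apply MvPolynomial.ringHom_ext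
    · intro a
      rw [MvPolynomial.eval₂Hom_C]
      rfl
    · intro i
      rw [MvPolynomial.eval₂Hom_X']
  obtain ⟨i, hi⟩ := core dex f hf I hI hne κ (fun i => ψ (MvPolynomial.X i))
    (by rw [hψe]; exact (hψ _).2 (hle (Or.inl rfl)))
    (fun j => by rw [hψe]; exact (hψ _).2 (hle (Or.inr ⟨j, rfl⟩)))
  exact Ideal.mem_of_dvd P (Finset.dvd_prod_of_mem _ (mem_univ i)) ((hψ _).1 hi)

end Pool.Agent.GEN.H64
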