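import Pool.Agent.GEN.StmtsR
import Pool.Agent.Helper40_Simp2.Str

/-!
# Squad GEN, row STR: the structure of a minimal flat cell, with active variables
-/

set_option autoImplicit false
set_option linter.unusedSectionVars false

namespace Pool.Agent.GEN.H64

open Finset Pool.Agent.Helper6_Mono Pool.Agent.Helper30_Simp Pool.Agent.Helper30_Simp2
open Pool.Agent.Helper30_Simp2.H40 (face_iff_of act mem_act exists_eps actR mem_actR_inl
  mem_actR_inr dot_add_smul sum_dv exists_pos_map)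

section str

variable {σ : Type} [Fintype σ]

/-- a flat cell which is not `UB1A` with the largest number of tight walls -/
structure Good (M : Finset (σ →₀ ℕ)) (a : Set σ) (κ : σ → ℕ) (N : ℕ) : Prop where
  hN : 0 < N
  ge : ∀ α ∈ M, N ≤ dot κ α
  ex : ∃ α ∈ M, dot κ α = N
  flat : FlatA M a κ
  max : ∀ (w : σ → ℕ) (q : ℕ), 0 < q → (∀ i, i ∉ a → w i = q * κ i) → (∀ i, κ i = 0 → w i = 0) →
    (∀ β ∈ M, q * N ≤ dot w β) → (∀ α ∈ face M κ, dot w α = q * N) →
    ((∃ i, κ i ≠ 0 ∧ w i = 0) ∨ ∃ β ∈ M, β ∉ face M κ ∧ dot w β = q * N) → UB1A M a w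
  nub : ¬ UB1A M a κ

theorem Good.face_iff {M : Finset (σ →₀ ℕ)} {a : Set σ} {κ : σ → ℕ} {N : ℕ} (G : Good M a κ N)
    (α : σ →₀ ℕ) : α ∈ face M κ ↔ α ∈ M ∧ dot κ α = N := face_iff_of G.ge G.ex α

theorem exists_good (M : Finset (σ →₀ ℕ)) (a : Set σ) (κ₀ : σ → ℕ) (N₀ : ℕ) (hN₀ : 0 < N₀)
    (hge₀ : ∀ α ∈ M, N₀ ≤ dot κ₀ α) (hex₀ : ∃ α ∈ M, dot κ₀ α = N₀) (hfl₀ : FlatA M a κ₀)
    (hnub₀ : ¬ UB1A M a κ₀) :
    ∃ (q : ℕ) (κ : σ → ℕ), Good M a κ (q * N₀) ∧ 0 < q ∧ (∀ i, i ∉ a → κ i = q * κ₀ i) ∧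
      (∀ i, κ₀ i = 0 → κ i = 0) ∧ (∀ α ∈ face M κ₀, α ∈ face M κ) ∧
      ∑ i, κ i = q * ∑ i, κ₀ i := by
  classical
  have hface₀ := face_iff_of hge₀ hex₀
  obtain ⟨α₀, hα₀, hα₀N⟩ := hex₀
  have hα₀f : α₀ ∈ face M κ₀ := (hface₀ α₀).2 ⟨hα₀, hα₀N⟩
  let P : ℕ → (σ → ℕ) → Prop := fun q w => 0 < q ∧ (∀ i, i ∉ a → w i = q * κ₀ i) ∧
    (∀ i, κ₀ i = 0 → w i = 0) ∧ (∀ β ∈ M, q * N₀ ≤ dot w β) ∧
    (∀ α ∈ face M κ₀, dot w α = q * N₀) ∧ ¬ UB1A M a w
  let T : Set ℕ := {k | ∃ (q : ℕ) (w : σ → ℕ), P q w ∧ (act M w (q * N₀)).card = k}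
  have hT : T.Nonempty := by
    refine ⟨_, 1, κ₀, ⟨one_pos, fun i _ => (one_mul _).symm, fun i hi => hi, fun β hβ => ?_,
      fun α hα => ?_, hnub₀⟩, rfl⟩
    · rw [one_mul]
      exact hge₀ β hβ
    · rw [one_mul]
      exact ((hface₀ α).1 hα).2
  have hTb : BddAbove T := by
    refine ⟨Fintype.card (Wa M), ?_⟩
    rintro k ⟨q, w, _, rfl⟩
    exact Finset.card_le_univ _
  obtain ⟨q, κ, ⟨hq, hoff, hzero, hge, hfc, hnub⟩, hcard⟩ := Nat.sSup_mem hT hTb
  have hmax : ∀ (q' : ℕ) (w : σ → ℕ), P q' w →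
      (act M w (q' * N₀)).card ≤ (act M κ (q * N₀)).card := by
    intro q' w h1
    rw [hcard]
    exact le_csSup hTb ⟨q', w, h1, rfl⟩
  have hex : ∃ α ∈ M, dot κ α = q * N₀ := ⟨α₀, hα₀, hfc α₀ hα₀f⟩
  have hface := face_iff_of hge hex
  have hff : ∀ α ∈ face M κ₀, α ∈ face M κ := fun α hα =>
    (hface α).2 ⟨((hface₀ α).1 hα).1, hfc α hα⟩
  refine ⟨q, κ, ⟨Nat.mul_pos hq hN₀, hge, hex, ?_, ?_, hnub⟩, hq, hoff, hzero, hff, ?_⟩
  · intro v hv hv2
    refine hfl₀ v (fun i hi => hv i ?_) fun α hα => hv2 α (hff α hα)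
    rcases hi with hi | hi
    · exact Or.inl (hzero i hi)
    · exact Or.inr hi
  · intro w q' hq' hw1 hw0 hwM hwf hextra
    by_contra hub
    have hP : P (q' * q) w := by
      refine ⟨Nat.mul_pos hq' hq, fun i hi => ?_, fun i hi => hw0 i (hzero i hi), fun β hβ => ?_,
        fun α hα => ?_, hub⟩
      · rw [hw1 i hi, hoff i hi, mul_assoc]
      · rw [mul_assoc]
        exact hwM β hβ
      · rw [mul_assoc]
        exact hwf α (hff α hα)
    have h1 := hmax _ _ hP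
    rw [mul_assoc] at h1
    have h2 : act M κ (q * N₀) ⊂ act M w (q' * (q * N₀)) := by
      rw [Finset.ssubset_iff_subset_ne]
      refine ⟨fun ρ hρ => ?_, fun heq => ?_⟩
      · rw [mem_act] at hρ ⊢
        rcases ρ with i | α
        · have h1 : ((κ i : ℕ) : ℤ) = 0 := hρ
          show ((w i : ℕ) : ℤ) = 0
          rw [hw0 i (by exact_mod_cast h1)]
          rfl
        · have h1 : ((dot κ (α : σ →₀ ℕ) : ℕ) : ℤ) - ((q * N₀ : ℕ) : ℤ) = 0 := hρ
          have h2 := hwf _ ((hface _).2 ⟨α.2, by omega⟩)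
          show ((dot w (α : σ →₀ ℕ) : ℕ) : ℤ) - ((q' * (q * N₀) : ℕ) : ℤ) = 0
          rw [h2]
          ring
      · rcases hextra with ⟨i, hi1, hi2⟩ | ⟨β, hβ, hβ1, hβ2⟩
        · have h3 : (Sum.inl i : Wa M) ∈ act M w (q' * (q * N₀)) := by
            rw [mem_act]
            show ((w i : ℕ) : ℤ) = 0
            rw [hi2]
            rfl
          rw [← heq, mem_act] at h3
          have h4 : ((κ i : ℕ) : ℤ) = 0 := h3
          exact hi1 (by exact_mod_cast h4)
        · have h3 : (Sum.inr ⟨β, hβ⟩ : Wa M) ∈ act M w (q' * (q * N₀)) := by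
            rw [mem_act]
            show ((dot w β : ℕ) : ℤ) - ((q' * (q * N₀) : ℕ) : ℤ) = 0
            rw [hβ2]
            ring
          rw [← heq, mem_act] at h3
          have h4 : ((dot κ β : ℕ) : ℤ) - ((q * N₀ : ℕ) : ℤ) = 0 := h3
          exact hβ1 ((hface _).2 ⟨hβ, by omega⟩)
    have h3 := Finset.card_lt_card h2
    omega
  · have h1 := hfl₀ (fun i => (κ i : ℚ) - q * κ₀ i) (fun i hi => ?_) (fun α hα => ?_)
    · rw [Finset.sum_sub_distrib, sub_eq_zero, ← Finset.mul_sum] at h1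
      exact_mod_cast h1
    · rcases hi with hi | hi
      · show (κ i : ℚ) - q * κ₀ i = 0
        rw [hzero i hi, hi]
        simp
      · show (κ i : ℚ) - q * κ₀ i = 0
        rw [hoff i hi]
        push_cast
        ring
    · have h2 : ((dot κ α : ℕ) : ℚ) = q * (dot κ₀ α : ℕ) := by
        rw [hfc α hα, ((hface₀ α).1 hα).2]
        push_cast
        ring
      unfold dot at h2
      push_cast at h2
      simp only [sub_mul]
      rw [Finset.sum_sub_distrib, h2, Finset.mul_sum, sub_eq_zero]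
      exact Finset.sum_congr rfl fun i _ => by ring

/-- real points of the flat cell -/
def PP (M : Finset (σ →₀ ℕ)) (a : Set σ) (κ : σ → ℕ) (N : ℕ) (w : σ → ℝ) : Prop :=
  (∀ i, 0 ≤ w i) ∧ (∀ i, κ i = 0 → w i = 0) ∧ (∀ i, i ∉ a → w i = (κ i : ℝ)) ∧
    (∀ β ∈ M, (N : ℝ) ≤ dot w β) ∧ ∀ α ∈ face M κ, dot w α = N

/-- at a real point with an additional tight wall some monomial has a unique direction -/
theorem Good.real (rat : RatStmt) {M : Finset (σ →₀ ℕ)} {a : Set σ} {κ : σ → ℕ} {N : ℕ}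
    (G : Good M a κ N) {w : σ → ℝ} (hw : PP M a κ N w)
    (hx : (∃ i, κ i ≠ 0 ∧ w i = 0) ∨ ∃ β ∈ M, β ∉ face M κ ∧ dot w β = N) :
    ∃ A ∈ face M κ, ∃ j, DirA M a κ A j ∧ FreeDir M N w A j ∧
      ∀ l, DirA M a κ A l → FreeDir M N w A l → l = j := by
  classical
  obtain ⟨hw1, hw2, hw3, hw4, hw5⟩ := hw
  obtain ⟨q, w', hq, h0, hn, hM⟩ := rat σ M w N G.hN hw1 hw4
  have hub := G.max w' q hq (fun i hi => hn i (κ i) (hw3 i hi))
    (fun i hi => (h0 i).2 (hw2 i hi)) (fun β hβ => (hM β hβ).1)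
    (fun α hα => (hM α hα.1).2.2 (hw5 α hα)) (by
      rcases hx with ⟨i, hi, hi'⟩ | ⟨β, hβ, hβ', hβ''⟩
      · exact Or.inl ⟨i, hi, (h0 i).2 hi'⟩
      · exact Or.inr ⟨β, hβ, hβ', (hM β hβ).2.2 hβ''⟩)
  obtain ⟨α₀, hα₀, hα₀N⟩ := G.ex
  have hα₀f : α₀ ∈ face M κ := (G.face_iff α₀).2 ⟨hα₀, hα₀N⟩
  have hface' := face_iff_of (N := q * N) (fun β hβ => (hM β hβ).1)
    ⟨α₀, hα₀, (hM α₀ hα₀).2.2 (hw5 α₀ hα₀f)⟩
  obtain ⟨A, hA, j, ⟨hja, hj0, hAj, hAβ⟩, huniq⟩ := hub
  have hAM : A ∈ M := hA.1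
  have hfree : ∀ β ∈ M, dot w β = N → β ≠ A → β j = 0 := fun β hβ h1 h2 =>
    hAβ β ((hface' β).2 ⟨hβ, (hM β hβ).2.2 h1⟩) h2
  have hκj : κ j ≠ 0 := fun h => hj0 ((h0 j).2 (hw2 j h))
  have hAf : A ∈ face M κ := by
    by_contra hcon
    have h1 := G.flat (fun i => if i = j then 1 else 0) (fun i hi => by
      rw [if_neg]
      rintro rfl
      rcases hi with hi | hi
      · exact hκj hi
      · exact hi hja) (fun α hα => by
        have h2 : α j = 0 := hfree α hα.1 (hw5 α hα) (by rintro rfl; exact hcon hα)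
        rw [Finset.sum_eq_single j]
        · rw [h2]; simp
        · intro i _ hi
          rw [if_neg hi, zero_mul]
        · intro h; exact absurd (mem_univ j) h)
    simp at h1
  refine ⟨A, hAf, j, ⟨hja, hκj, hAj, fun β hβ h1 => hfree β hβ.1 (hw5 β hβ) h1⟩,
    ⟨fun h => hj0 ((h0 j).2 h), hfree⟩, fun l hl hl' => huniq l ⟨hl.1, fun h => hl'.1 ((h0 l).1 h),
      hl.2.2.1, fun β hβ h1 => hl'.2 β hβ.1 ?_ h1⟩⟩
  exact (hM β hβ.1).2.1 ((hface' β).1 hβ).2

theorem Good.realflat {M : Finset (σ →₀ ℕ)} {a : Set σ} {κ : σ → ℕ} {N : ℕ} (G : Good M a κ N)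
    (v : σ → ℝ) (hv : ∀ i, κ i = 0 ∨ i ∉ a → v i = 0)
    (hv2 : ∀ α ∈ face M κ, ∑ i, v i * (α i : ℝ) = 0) : ∑ i, v i = 0 := by
  by_contra hne
  obtain ⟨φ, hφ⟩ := exists_pos_map {|∑ i, v i|} (by
    intro x hx
    rw [Finset.mem_singleton.1 hx]
    exact abs_pos.2 hne)
  have hφ0 : φ (∑ i, v i) ≠ 0 := by
    intro h
    have h1 := hφ _ (Finset.mem_singleton_self _)
    rcases abs_choice (∑ i, v i) with h2 | h2
    · rw [h2, h] at h1
      exact lt_irrefl _ h1
    · rw [h2, map_neg, h, neg_zero] at h1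
      exact lt_irrefl _ h1
  apply hφ0
  rw [map_sum]
  refine G.flat (fun i => φ (v i)) (fun i hi => by
    show φ (v i) = 0
    rw [hv i hi, map_zero]) (fun α hα => ?_)
  have h1 := congrArg φ (hv2 α hα)
  rw [map_sum, map_zero] at h1
  rw [← h1]
  refine Finset.sum_congr rfl fun i _ => ?_
  have : v i * (α i : ℝ) = (α i) • v i := by
    rw [nsmul_eq_mul, mul_comm]
  rw [this, map_nsmul, nsmul_eq_mul, mul_comm]

theorem isCompact_PP {M : Finset (σ →₀ ℕ)} {a : Set σ} {κ : σ → ℕ} {N : ℕ} (G : Good M a κ N) :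
    IsCompact {w : σ → ℝ | PP M a κ N w} := by
  refine IsCompact.of_isClosed_subset (isCompact_Icc (a := (0 : σ → ℝ))
    (b := fun _ => ((∑ i, κ i : ℕ) : ℝ))) ?_ ?_
  · have hd : ∀ β : σ →₀ ℕ, Continuous fun w : σ → ℝ => dot w β := by
      intro β
      unfold dot
      exact continuous_finsetSum _ fun i _ => (continuous_apply i).mul continuous_const
    have : {w : σ → ℝ | PP M a κ N w} = (⋂ i, {w : σ → ℝ | 0 ≤ w i}) ∩
        ((⋂ i, ⋂ (_ : κ i = 0), {w : σ → ℝ | w i = 0}) ∩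
        ((⋂ i, ⋂ (_ : i ∉ a), {w : σ → ℝ | w i = (κ i : ℝ)}) ∩
        ((⋂ β, ⋂ (_ : β ∈ M), {w : σ → ℝ | (N : ℝ) ≤ dot w β}) ∩
          ⋂ α, ⋂ (_ : α ∈ face M κ), {w : σ → ℝ | dot w α = N}))) := by
      ext w
      simp only [Set.mem_ofPred_eq, Set.mem_inter_iff, Set.mem_iInter]
      rfl
    rw [this]
    refine (isClosed_iInter fun i => isClosed_le continuous_const (continuous_apply i)).inter
      ((isClosed_iInter fun i => isClosed_iInter fun _ =>
        isClosed_eq (continuous_apply i) continuous_const).inter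
      ((isClosed_iInter fun i => isClosed_iInter fun _ =>
        isClosed_eq (continuous_apply i) continuous_const).inter
      ((isClosed_iInter fun β => isClosed_iInter fun _ =>
        isClosed_le continuous_const (hd β)).inter
        (isClosed_iInter fun β => isClosed_iInter fun _ =>
          isClosed_eq (hd β) continuous_const))))
  · rintro w ⟨h1, h2, h3, _, h4⟩
    have h5 : ∑ i, (w i - (κ i : ℝ)) = 0 := by
      refine G.realflat _ (fun i hi => ?_) (fun α hα => ?_)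
      · rcases hi with hi | hi
        · rw [h2 i hi, hi]; simp
        · rw [h3 i hi, sub_self]
      · have h6 : ((dot κ α : ℕ) : ℝ) = N := by rw [((G.face_iff α).1 hα).2]
        have h7 := h4 α hα
        unfold dot at h6 h7
        push_cast at h6
        simp only [sub_mul]
        rw [Finset.sum_sub_distrib, h6, h7, sub_self]
    rw [Finset.sum_sub_distrib] at h5
    refine ⟨h1, fun i => ?_⟩
    have h6 : w i ≤ ∑ i, w i := Finset.single_le_sum (f := w) (fun j _ => h1 j) (mem_univ i)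
    show w i ≤ ((∑ i, κ i : ℕ) : ℝ)
    push_cast
    linarith

/-- the main step: no functional without a forced direction -/
theorem Good.main (rat : RatStmt) {M : Finset (σ →₀ ℕ)} {a : Set σ} {κ : σ → ℕ} {N : ℕ}
    (G : Good M a κ N) (c : σ → ℚ)
    (hc : ∀ A ∈ face M κ, ∀ j, DirA M a κ A j → ∃ j', DirA M a κ A j' ∧ j' ≠ j ∧ c j' ≤ c j)
    (v : σ → ℚ) (hv : ∀ i, κ i = 0 ∨ i ∉ a → v i = 0)
    (hv2 : ∀ α ∈ face M κ, ∑ i, v i * (α i : ℚ) = 0) : ∑ i, c i * v i = 0 := by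
  classical
  by_contra hne
  -- the minimum of the functional
  have hcont : Continuous fun w : σ → ℝ => ∑ i, (c i : ℝ) * w i :=
    continuous_finsetSum _ fun i _ => continuous_const.mul (continuous_apply i)
  have hκP : PP M a κ N (fun i => (κ i : ℝ)) := by
    have hd : ∀ β : σ →₀ ℕ, dot (fun i => (κ i : ℝ)) β = ((dot κ β : ℕ) : ℝ) := by
      intro β
      unfold dot
      push_cast
      rfl
    refine ⟨fun i => Nat.cast_nonneg _, fun i hi => by
      show ((κ i : ℕ) : ℝ) = 0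
      rw [hi]; simp, fun i _ => rfl, fun β hβ => ?_, fun α hα => ?_⟩
    · rw [hd]
      exact_mod_cast G.ge β hβ
    · rw [hd, ((G.face_iff α).1 hα).2]
  obtain ⟨w₀, hw₀, hmin⟩ := (isCompact_PP G).exists_isMinOn ⟨_, hκP⟩ hcont.continuousOn
  have hmin' : ∀ w, PP M a κ N w → ∑ i, (c i : ℝ) * w₀ i ≤ ∑ i, (c i : ℝ) * w i := fun w hw =>
    hmin hw
  set m : ℝ := ∑ i, (c i : ℝ) * w₀ i with hm
  -- the smallest tight set
  have hex : ∃ k, ∃ w, PP M a κ N w ∧ ∑ i, (c i : ℝ) * w i = m ∧ (actR M N w).card = k :=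
    ⟨_, w₀, hw₀, rfl, rfl⟩
  obtain ⟨w, hw, hwm, hwk⟩ := Nat.find_spec hex
  obtain ⟨hw1, hw2, hw3, hw4, hw5⟩ := hw
  have hsub : ∀ w', PP M a κ N w' → ∑ i, (c i : ℝ) * w' i = m → actR M N w ⊆ actR M N w' := by
    intro w' hw' hwm'
    obtain ⟨hw1', hw2', hw3', hw4', hw5'⟩ := hw'
    let z : σ → ℝ := fun i => (w i + w' i) / 2
    have hz : ∀ β : σ →₀ ℕ, dot z β = (dot w β + dot w' β) / 2 := by
      intro β
      unfold dot
      rw [← Finset.sum_add_distrib, Finset.sum_div]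
      exact Finset.sum_congr rfl fun i _ => by show (w i + w' i) / 2 * _ = _; ring
    have hzP : PP M a κ N z := by
      refine ⟨fun i => ?_, fun i hi => ?_, fun i hi => ?_, fun β hβ => ?_, fun α hα => ?_⟩
      · have h1 := hw1 i
        have h2 := hw1' i
        show 0 ≤ (w i + w' i) / 2
        linarith
      · show (w i + w' i) / 2 = 0
        rw [hw2 i hi, hw2' i hi]; simp
      · show (w i + w' i) / 2 = (κ i : ℝ)
        rw [hw3 i hi, hw3' i hi]; ring
      · rw [hz]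
        have h1 := hw4 β hβ
        have h2 := hw4' β hβ
        linarith
      · rw [hz, hw5 α hα, hw5' α hα]; ring
    have hzm : ∑ i, (c i : ℝ) * z i = m := by
      have : ∑ i, (c i : ℝ) * z i = (∑ i, (c i : ℝ) * w i + ∑ i, (c i : ℝ) * w' i) / 2 := by
        rw [← Finset.sum_add_distrib, Finset.sum_div]
        exact Finset.sum_congr rfl fun i _ => by show _ * ((w i + w' i) / 2) = _; ring
      rw [this, hwm, hwm']; ring
    have h1 : actR M N z ⊆ actR M N w := by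
      intro ρ hρ
      rcases ρ with i | α
      · rw [mem_actR_inl] at hρ ⊢
        have h2 : (w i + w' i) / 2 = 0 := hρ
        have h3 := hw1 i
        have h4 := hw1' i
        linarith
      · rw [mem_actR_inr] at hρ ⊢
        rw [hz] at hρ
        have h3 := hw4 _ α.2
        have h4 := hw4' _ α.2
        linarith
    have h2 : actR M N z ⊆ actR M N w' := by
      intro ρ hρ
      rcases ρ with i | α
      · rw [mem_actR_inl] at hρ ⊢
        have h2 : (w i + w' i) / 2 = 0 := hρ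
        have h3 := hw1 i
        have h4 := hw1' i
        linarith
      · rw [mem_actR_inr] at hρ ⊢
        rw [hz] at hρ
        have h3 := hw4 _ α.2
        have h4 := hw4' _ α.2
        linarith
    have h3 : (actR M N w).card ≤ (actR M N z).card := by
      rw [hwk]
      exact Nat.find_min' hex ⟨z, hzP, hzm, rfl⟩
    rw [← Finset.eq_of_subset_of_card_le h1 h3]
    exact h2
  -- there is a new tight wall
  have hnew : (∃ i, κ i ≠ 0 ∧ w i = 0) ∨ ∃ β ∈ M, β ∉ face M κ ∧ dot w β = N := by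
    by_contra hcon
    push Not at hcon
    obtain ⟨hcon1, hcon2⟩ := hcon
    obtain ⟨ε₁, hε₁, hε₁'⟩ := exists_eps (univ.filter fun i => κ i ≠ 0) w (fun i => (v i : ℝ))
      (fun i hi => lt_of_le_of_ne (hw1 i) (Ne.symm (hcon1 i (Finset.mem_filter.1 hi).2)))
    obtain ⟨ε₂, hε₂, hε₂'⟩ := exists_eps (M.filter fun β => β ∉ face M κ)
      (fun β => dot w β - N) (fun β => ∑ i, (v i : ℝ) * (β i : ℝ))
      (fun β hβ => by
        have h1 := Finset.mem_filter.1 hβ
        have h2 := lt_of_le_of_ne (hw4 β h1.1) (Ne.symm (hcon2 β h1.1 h1.2))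
        linarith)
    have hvR : ∀ α ∈ face M κ, ∑ i, (v i : ℝ) * (α i : ℝ) = 0 := by
      intro α hα
      have := hv2 α hα
      have h1 : ((∑ i, v i * (α i : ℚ) : ℚ) : ℝ) = 0 := by rw [this]; simp
      push_cast at h1
      exact h1
    have key : ∀ t : ℝ, |t| ≤ min ε₁ ε₂ → PP M a κ N (fun i => w i + t * (v i : ℝ)) := by
      intro t ht
      refine ⟨fun i => ?_, fun i hi => ?_, fun i hi => ?_, fun β hβ => ?_, fun α hα => ?_⟩
      · show 0 ≤ w i + t * (v i : ℝ)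
        by_cases hi : κ i = 0
        · rw [hw2 i hi, hv i (Or.inl hi)]; simp
        · have h1 := hε₁' i (Finset.mem_filter.2 ⟨mem_univ i, hi⟩)
          have h2 : |t * (v i : ℝ)| ≤ ε₁ * |(v i : ℝ)| := by
            rw [abs_mul]
            exact mul_le_mul_of_nonneg_right (ht.trans (min_le_left _ _)) (abs_nonneg _)
          have h3 := neg_abs_le (t * (v i : ℝ))
          linarith
      · show w i + t * (v i : ℝ) = 0
        rw [hw2 i hi, hv i (Or.inl hi)]; simp
      · show w i + t * (v i : ℝ) = (κ i : ℝ)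
        rw [hw3 i hi, hv i (Or.inr hi)]; simp
      · rw [dot_add_smul]
        by_cases hβf : β ∈ face M κ
        · rw [hvR β hβf, hw5 β hβf]; simp
        · have h1 := hε₂' β (Finset.mem_filter.2 ⟨hβ, hβf⟩)
          have h2 : |t * ∑ i, (v i : ℝ) * (β i : ℝ)| ≤ ε₂ * |∑ i, (v i : ℝ) * (β i : ℝ)| := by
            rw [abs_mul]
            exact mul_le_mul_of_nonneg_right (ht.trans (min_le_right _ _)) (abs_nonneg _)
          have h3 := neg_abs_le (t * ∑ i, (v i : ℝ) * (β i : ℝ))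
          linarith
      · rw [dot_add_smul, hvR α hα, hw5 α hα]; simp
    have hval : ∀ t : ℝ, ∑ i, (c i : ℝ) * (w i + t * (v i : ℝ))
        = m + t * ∑ i, (c i : ℝ) * (v i : ℝ) := by
      intro t
      rw [← hwm, Finset.mul_sum, ← Finset.sum_add_distrib]
      exact Finset.sum_congr rfl fun i _ => by ring
    have hneR : (∑ i, (c i : ℝ) * (v i : ℝ)) ≠ 0 := by
      intro h
      apply hne
      have h1 : ((∑ i, c i * v i : ℚ) : ℝ) = 0 := by
        push_cast
        exact h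
      exact_mod_cast h1
    have hε : 0 < min ε₁ ε₂ := lt_min hε₁ hε₂
    rcases lt_or_gt_of_ne hneR with h | h
    · have h1 := hmin' _ (key (min ε₁ ε₂) (by rw [abs_of_pos hε]))
      rw [hval] at h1
      nlinarith
    · have h1 := hmin' _ (key (-(min ε₁ ε₂)) (by rw [abs_neg, abs_of_pos hε]))
      rw [hval] at h1
      nlinarith
  obtain ⟨A, hA, j, hAj, hfree, huniq⟩ := G.real rat ⟨hw1, hw2, hw3, hw4, hw5⟩ hnew
  obtain ⟨j', hj', hjj', hcj⟩ := hc A hA j hAj
  -- the other direction is not free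
  have hnf : ¬ FreeDir M N w A j' := fun h => hjj' (huniq j' hj' h)
  obtain ⟨t₁, ht₁, ht₁'⟩ := exists_eps (M.filter fun β => dot w β ≠ N)
      (fun β => dot w β - N) (fun β => (β j' : ℝ) - (β j : ℝ))
      (fun β hβ => by
        have h1 := Finset.mem_filter.1 hβ
        have h2 := lt_of_le_of_ne (hw4 β h1.1) (Ne.symm h1.2)
        linarith)
  have hwj : 0 < w j := lt_of_le_of_ne (hw1 j) (Ne.symm hfree.1)
  set t : ℝ := min t₁ (w j) with ht
  have ht0 : 0 < t := lt_min ht₁ hwj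
  let e : σ → ℝ := fun i => (if i = j' then (1 : ℝ) else 0) - if i = j then 1 else 0
  have he : ∀ b : σ → ℝ, ∑ i, e i * b i = b j' - b j := fun b => sum_dv j' j b
  have hej' : e j' = 1 := by
    show (if j' = j' then (1 : ℝ) else 0) - (if j' = j then 1 else 0) = 1
    rw [if_pos rfl, if_neg hjj']; ring
  have hzP : PP M a κ N (fun i => w i + t * e i) := by
    refine ⟨fun i => ?_, fun i hi => ?_, fun i hi => ?_, fun β hβ => ?_, fun α hα => ?_⟩
    · show 0 ≤ w i + t * e i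
      by_cases hi : i = j
      · have h1 : e i = -1 := by
          show (if i = j' then (1 : ℝ) else 0) - (if i = j then 1 else 0) = -1
          rw [if_pos hi, if_neg (by rw [hi]; exact hjj'.symm)]; ring
        rw [h1, hi]
        have := min_le_right t₁ (w j)
        linarith
      · have h1 : 0 ≤ e i := by
          show 0 ≤ (if i = j' then (1 : ℝ) else 0) - (if i = j then 1 else 0)
          rw [if_neg hi]
          split_ifs <;> norm_num
        have h2 := hw1 i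
        positivity
    · have h1 : i ≠ j := by rintro rfl; exact hAj.2.1 hi
      have h2 : i ≠ j' := by rintro rfl; exact hj'.2.1 hi
      show w i + t * ((if i = j' then (1 : ℝ) else 0) - (if i = j then 1 else 0)) = 0
      rw [hw2 i hi, if_neg h1, if_neg h2]; ring
    · have h1 : i ≠ j := by rintro rfl; exact hi hAj.1
      have h2 : i ≠ j' := by rintro rfl; exact hi hj'.1
      show w i + t * ((if i = j' then (1 : ℝ) else 0) - (if i = j then 1 else 0)) = (κ i : ℝ)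
      rw [hw3 i hi, if_neg h1, if_neg h2]; ring
    · rw [dot_add_smul, he]
      by_cases hβN : dot w β = N
      · by_cases hβA : β = A
        · rw [hβN, hβA, hj'.2.2.1, hAj.2.2.1]; simp
        · rw [hβN, hfree.2 β hβ hβN hβA]
          have : (0 : ℝ) ≤ t * ((β j' : ℝ) - ((0 : ℕ) : ℝ)) := by
            have h3 : (0 : ℝ) ≤ (β j' : ℝ) := Nat.cast_nonneg _
            have h4 : ((0 : ℕ) : ℝ) = 0 := Nat.cast_zero
            rw [h4, sub_zero]
            positivity
          linarith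
      · have h1 := ht₁' β (Finset.mem_filter.2 ⟨hβ, hβN⟩)
        have h2 : |t * ((β j' : ℝ) - (β j : ℝ))| ≤ t₁ * |(β j' : ℝ) - (β j : ℝ)| := by
          rw [abs_mul, abs_of_pos ht0]
          exact mul_le_mul_of_nonneg_right (min_le_left _ _) (abs_nonneg _)
        have h3 := neg_abs_le (t * ((β j' : ℝ) - (β j : ℝ)))
        linarith
    · rw [dot_add_smul, he, hw5 α hα]
      by_cases hαA : α = A
      · rw [hαA, hj'.2.2.1, hAj.2.2.1]; simp
      · rw [hj'.2.2.2 α hα hαA, hAj.2.2.2 α hα hαA]; simp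
  have hzm : ∑ i, (c i : ℝ) * (w i + t * e i) = m := by
    have h1 : ∑ i, (c i : ℝ) * (w i + t * e i) = m + t * ((c j' : ℝ) - (c j : ℝ)) := by
      have h2 := he fun i => (c i : ℝ)
      rw [← hwm, ← h2, Finset.mul_sum, ← Finset.sum_add_distrib]
      exact Finset.sum_congr rfl fun i _ => by ring
    have h2 := hmin' _ hzP
    rw [h1] at h2 ⊢
    have h3 : (c j' : ℝ) ≤ (c j : ℝ) := by exact_mod_cast hcj
    nlinarith
  have hsub' := hsub _ hzP hzm
  apply hnf
  refine ⟨fun h0 => ?_, fun β hβ hβN hβA => ?_⟩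
  · have h1 := hsub' ((mem_actR_inl M N w j').2 h0)
    rw [mem_actR_inl] at h1
    rw [h0, hej'] at h1
    linarith
  · by_contra hβj'
    have h1 := hsub' ((mem_actR_inr M N w ⟨β, hβ⟩).2 hβN)
    rw [mem_actR_inr] at h1
    have h2 : dot (fun i => w i + t * e i) β = N := h1
    rw [dot_add_smul, he, hβN, hfree.2 β hβ hβN hβA] at h2
    have h3 : (0 : ℝ) < (β j' : ℝ) := by
      have := Nat.pos_of_ne_zero hβj'
      exact_mod_cast this
    have h4 : ((0 : ℕ) : ℝ) = 0 := Nat.cast_zero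
    rw [h4, sub_zero] at h2
    have h5 : 0 < t * (β j' : ℝ) := mul_pos ht0 h3
    linarith

/-- an apex has at most two directions -/
theorem Good.two (rat : RatStmt) {M : Finset (σ →₀ ℕ)} {a : Set σ} {κ : σ → ℕ} {N : ℕ}
    (G : Good M a κ N) (A : σ →₀ ℕ) (hA : A ∈ face M κ) (j1 j2 j3 : σ) (h1 : DirA M a κ A j1)
    (h2 : DirA M a κ A j2) (h3 : DirA M a κ A j3) (h12 : j1 ≠ j2) : j3 = j1 ∨ j3 = j2 := by
  classical
  by_contra hcon
  push Not at hcon
  have hnub : ∀ B ∈ face M κ, ∀ j, DirA M a κ B j → ∃ l, DirA M a κ B l ∧ l ≠ j := by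
    intro B hB j hj
    by_contra hc
    push Not at hc
    exact G.nub ⟨B, hB, j, hj, hc⟩
  have h := G.main rat (fun i => if i = j3 then 1 else 0) (fun B hB j hj => by
    by_cases hjj : j = j3
    · subst hjj
      have hBA : B = A := by
        by_contra hne
        have h4 := hj.2.2.2 A hA (Ne.symm hne)
        rw [h3.2.2.1] at h4
        exact one_ne_zero h4
      subst hBA
      refine ⟨j1, h1, hcon.1.symm, ?_⟩
      show (if j1 = j then (1 : ℚ) else 0) ≤ if j = j then 1 else 0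
      rw [if_neg hcon.1.symm, if_pos rfl]
      exact zero_le_one
    · by_cases hBA : B = A
      · subst hBA
        by_cases hj1 : j = j1
        · refine ⟨j2, h2, fun h => h12 (hj1.symm.trans h.symm), ?_⟩
          rw [if_neg hcon.2.symm, if_neg hjj]
        · refine ⟨j1, h1, Ne.symm hj1, ?_⟩
          rw [if_neg hcon.1.symm, if_neg hjj]
      · obtain ⟨l, hl, hlj⟩ := hnub B hB j hj
        refine ⟨l, hl, hlj, ?_⟩
        have h5 : l ≠ j3 := by
          intro hl3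
          have h4 := hl.2.2.2 A hA (Ne.symm hBA)
          rw [hl3, h3.2.2.1] at h4
          exact one_ne_zero h4
        show (if l = j3 then (1 : ℚ) else 0) ≤ if j = j3 then 1 else 0
        rw [if_neg h5, if_neg hjj]) (fun i => dv j3 j1 i) (fun i hi => by
    have h4 : i ≠ j3 := by
      rintro rfl
      rcases hi with hi | hi
      · exact h3.2.1 hi
      · exact hi h3.1
    have h5 : i ≠ j1 := by
      rintro rfl
      rcases hi with hi | hi
      · exact h1.2.1 hi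
      · exact hi h1.1
    unfold dv
    rw [if_neg h4, if_neg h5, sub_zero]) (fun α hα => by
    unfold dv
    simp only [sub_mul, ite_mul, one_mul, zero_mul]
    rw [Finset.sum_sub_distrib, Finset.sum_ite_eq' univ j3 fun i => (α i : ℚ),
      Finset.sum_ite_eq' univ j1 fun i => (α i : ℚ), if_pos (mem_univ _), if_pos (mem_univ _)]
    by_cases hαA : α = A
    · rw [hαA, h3.2.2.1, h1.2.2.1, sub_self]
    · rw [h3.2.2.2 α hα hαA, h1.2.2.2 α hα hαA, sub_self])
  unfold dv at h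
  simp only [ite_mul, one_mul, zero_mul] at h
  rw [Finset.sum_ite_eq' univ j3] at h
  simp only [mem_univ, if_true] at h
  rw [if_neg hcon.1] at h
  norm_num at h

end str

/-- Row STR -/
theorem str (rat : RatStmt) : StrStmtA := by
  classical
  intro σ _ M a κ₀ N₀ hN₀ hge₀ hex₀ hfl₀ hnub₀
  obtain ⟨q, κ, G, hq, hoff, hzero, hff, hsum⟩ := exists_good M a κ₀ N₀ hN₀ hge₀ hex₀ hfl₀ hnub₀
  obtain ⟨N, hNq⟩ : ∃ N, N = q * N₀ := ⟨_, rfl⟩
  rw [← hNq] at G
  have hne : Nonempty σ := by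
    by_contra hcon
    rw [not_nonempty_iff] at hcon
    obtain ⟨α, hα, hαN⟩ := G.ex
    have h1 : dot κ α = 0 := by
      unfold dot
      simp
    have := G.hN
    omega
  obtain ⟨s₀⟩ := hne
  have hnub : ∀ B ∈ face M κ, ∀ j, DirA M a κ B j → ∃ l, DirA M a κ B l ∧ l ≠ j := by
    intro B hB j hj
    by_contra hc
    push Not at hc
    exact G.nub ⟨B, hB, j, hj, hc⟩
  have hch : ∀ A : σ →₀ ℕ, ∃ p : σ × σ, A ∈ face M κ → (∃ j, DirA M a κ A j) →
      p.1 ≠ p.2 ∧ DirA M a κ A p.1 ∧ DirA M a κ A p.2 := by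
    intro A
    by_cases h : A ∈ face M κ ∧ ∃ j, DirA M a κ A j
    · obtain ⟨hA, j, hj⟩ := h
      obtain ⟨l, hl, hlj⟩ := hnub A hA j hj
      exact ⟨(j, l), fun _ _ => ⟨hlj.symm, hj, hl⟩⟩
    · exact ⟨(s₀, s₀), fun h1 h2 => absurd ⟨h1, h2⟩ h⟩
  choose p hp using hch
  set Ap : Finset (σ →₀ ℕ) := M.filter fun A => A ∈ face M κ ∧ ∃ j, DirA M a κ A j with hAp
  have hmem : ∀ A, A ∈ Ap ↔ A ∈ face M κ ∧ ∃ j, DirA M a κ A j := by
    intro A
    rw [hAp, Finset.mem_filter]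
    exact ⟨fun h => h.2, fun h => ⟨h.1.1, h⟩⟩
  have hall : ∀ A ∈ face M κ, ∀ j, DirA M a κ A j → A ∈ Ap ∧ (j = (p A).1 ∨ j = (p A).2) := by
    intro A hA j hj
    obtain ⟨h1, h2, h3⟩ := hp A hA ⟨j, hj⟩
    exact ⟨(hmem A).2 ⟨hA, j, hj⟩, G.two rat A hA _ _ j h2 h3 hj h1⟩
  refine ⟨q, κ, ⟨N, G.hN, G.ge, G.ex, G.flat, Ap, fun A => (p A).1, fun A => (p A).2, ?_, hall, ?_,
    ?_⟩, hq, hNq, hoff, hzero, hff, hsum⟩
  · intro A hA
    obtain ⟨h1, h2⟩ := (hmem A).1 hA
    obtain ⟨h3, h4, h5⟩ := hp A h1 h2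
    exact ⟨h1, h3, h4, h5⟩
  · intro v hv hv2
    by_contra hcon
    set W : Submodule ℚ (σ → ℚ) := Submodule.span ℚ (Set.range fun A : Ap =>
      dv (p (A : σ →₀ ℕ)).1 (p (A : σ →₀ ℕ)).2) with hW
    have hvW : v ∉ W := by
      intro h
      rw [hW, Submodule.mem_span_range_iff_exists_fun] at h
      obtain ⟨y, hy⟩ := h
      apply hcon
      refine ⟨fun A => if h : A ∈ Ap then y ⟨A, h⟩ else 0, fun i => ?_⟩
      rw [← hy, Finset.sum_apply, ← Finset.sum_coe_sort Ap]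
      refine Finset.sum_congr rfl fun A _ => ?_
      show y A * dv (p (A : σ →₀ ℕ)).1 (p (A : σ →₀ ℕ)).2 i
        = (if h : (A : σ →₀ ℕ) ∈ Ap then y ⟨A, h⟩ else 0)
          * dv (p (A : σ →₀ ℕ)).1 (p (A : σ →₀ ℕ)).2 i
      rw [dif_pos A.2]
    obtain ⟨f, hf, hfW⟩ := Submodule.exists_le_ker_of_notMem hvW
    have hfe : ∀ u : σ → ℚ, f u = ∑ i, f (Pi.single i 1) * u i := by
      intro u
      have h0 : u = ∑ i, u i • Pi.single i (1 : ℚ) := by
        funext l
        rw [Finset.sum_apply]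
        simp [Pi.single_apply]
      conv_lhs => rw [h0]
      rw [map_sum]
      refine Finset.sum_congr rfl fun i _ => ?_
      rw [map_smul, smul_eq_mul, mul_comm]
    apply hf
    rw [hfe]
    refine G.main rat (fun i => f (Pi.single i 1)) (fun A hA j hj => ?_) v hv hv2
    obtain ⟨hAp', hj'⟩ := hall A hA j hj
    obtain ⟨h3, h4, h5⟩ := hp A hA ⟨j, hj⟩
    have h6 : f (dv (p A).1 (p A).2) = 0 := by
      have h7 : dv (p A).1 (p A).2 ∈ W := Submodule.subset_span ⟨⟨A, hAp'⟩, rfl⟩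
      exact LinearMap.mem_ker.1 (hfW h7)
    have h8 : dv (p A).1 (p A).2 = Pi.single (p A).1 (1 : ℚ) - Pi.single (p A).2 1 := by
      funext i
      unfold dv
      rw [Pi.sub_apply, Pi.single_apply, Pi.single_apply]
    rw [h8, map_sub, sub_eq_zero] at h6
    rcases hj' with rfl | rfl
    · exact ⟨_, h5, h3.symm, h6.ge⟩
    · exact ⟨_, h4, h3, h6.le⟩
  · intro w h1 h2 h3 h4 h5 h6
    obtain ⟨A, hA, j, hj, hfree, huniq⟩ := G.real rat (w := w) ⟨h1, h2, h3, h4, h5⟩ h6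
    obtain ⟨hAp', hj'⟩ := hall A hA j hj
    obtain ⟨h6, h7, h8⟩ := hp A hA ⟨j, hj⟩
    refine ⟨A, hAp', fun hiff => ?_⟩
    rcases hj' with rfl | rfl
    · exact h6 (huniq _ h8 (hiff.1 hfree)).symm
    · exact h6 (huniq _ h7 (hiff.2 hfree))

end Pool.Agent.GEN.H64
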